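import Pool.Agent.H633R5.FS.Fin
import Mathlib.Combinatorics.Additive.PluenneckeRuzsa

/-!
A set `A` of integers that is almost absorbed by a finite set `P` under addition expands every
finite set `B` of non-zero elements of a field of characteristic zero under multiplication.
-/

set_option autoImplicit false

namespace H633R6

open Finset
open scoped Pointwise

/-- the unit of `F` given by a non-zero integer (1 at zero) -/
noncomputable def toU (F : Type*) [Field F] [CharZero F] (a : ℤ) : Fˣ :=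
  if h : a = 0 then 1 else Units.mk0 (a : F) (by exact_mod_cast h)

theorem toU_val {F : Type*} [Field F] [CharZero F] {a : ℤ} (h : a ≠ 0) :
    ((toU F a : Fˣ) : F) = (a : F) := by
  simp [toU, h]

theorem toU_inj {F : Type*} [Field F] [CharZero F] {a b : ℤ} (ha : a ≠ 0) (hb : b ≠ 0)
    (h : toU F a = toU F b) : a = b := by
  have := congrArg (Units.val) h
  rw [toU_val ha, toU_val hb] at this
  exact_mod_cast this

/-- the `k`-fold product set of non-zero integers is not larger than the `k`-th power in `Fˣ` -/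
theorem card_prod_le {F : Type*} [Field F] [CharZero F] [DecidableEq Fˣ] {k : ℕ}
    (A : Finset ℤ) (hA : ∀ a ∈ A, a ≠ 0) :
    ((Fintype.piFinset fun _ : Fin k => A).image fun f => ∏ i, f i).card ≤
      ((A.image (toU F)) ^ k).card := by
  classical
  have key : ∀ f ∈ Fintype.piFinset (fun _ : Fin k => A), ∏ i, f i ≠ 0 := by
    intro f hf
    rw [Finset.prod_ne_zero_iff]
    intro i _
    exact hA _ (Fintype.mem_piFinset.1 hf i)
  have himg : ∀ x ∈ ((Fintype.piFinset fun _ : Fin k => A).image fun f => ∏ i, f i),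
      toU F x ∈ (A.image (toU F)) ^ k := by
    intro x hx
    obtain ⟨f, hf, rfl⟩ := Finset.mem_image.1 hx
    have hval : toU F (∏ i, f i) = ∏ i, toU F (f i) := by
      apply Units.ext
      rw [toU_val (key f hf), Units.coe_prod]
      push_cast
      refine Finset.prod_congr rfl fun i _ => ?_
      rw [toU_val (hA _ (Fintype.mem_piFinset.1 hf i))]
    rw [hval, Finset.mem_pow]
    refine ⟨fun i => ⟨toU F (f i), Finset.mem_image_of_mem _ (Fintype.mem_piFinset.1 hf i)⟩, ?_⟩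
    rw [List.prod_ofFn]
  refine Finset.card_le_card_of_injOn (toU F) himg ?_
  intro x hx y hy hxy
  obtain ⟨f, hf, rfl⟩ := Finset.mem_image.1 (Finset.mem_coe.1 hx)
  obtain ⟨g, hg, rfl⟩ := Finset.mem_image.1 (Finset.mem_coe.1 hy)
  exact toU_inj (key f hf) (key g hg) hxy

/-- `3 + log x ≤ (3 + 1/s) x^s` for `x ≥ 1`, `s > 0` -/
theorem three_log_le {x s : ℝ} (hx : 1 ≤ x) (hs : 0 < s) :
    3 + Real.log x ≤ (3 + 1 / s) * x ^ s := by
  have h1 : Real.log x ≤ x ^ s / s := Real.log_le_rpow_div (by linarith) hs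
  have h2 : (1 : ℝ) ≤ x ^ s := Real.one_le_rpow hx hs.le
  have h3 : x ^ s / s = 1 / s * x ^ s := by ring
  nlinarith

theorem expansion.{u} (k : ℕ) (hk : 1 ≤ k) (ε : ℝ) (hε : 0 < ε) :
    ∃ C : ℝ, 0 < C ∧ ∀ (F : Type u) [Field F] [CharZero F] [DecidableEq F] (A P : Finset ℤ)
      (B : Finset F), (∃ a ∈ A, a ≠ 0) → P.Nonempty → B.Nonempty → (0 : F) ∉ B →
      (A.card : ℝ) ^ (1 - ε) * (B.card : ℝ) ^ (1 - 1 / (k : ℝ)) ≤
        C * (P.card : ℝ) ^ ε * (((A + P).card : ℝ) / P.card) ^ C *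
          ((A.image (Int.cast : ℤ → F) * B).card : ℝ) := by
  obtain ⟨C₀, hC₀, hmain⟩ := H633R5.FS.tuple k hk ε hε
  set e : ℝ := min 1 (ε / 2) with he
  have he0 : 0 < e := lt_min one_pos (by linarith)
  have he1 : e ≤ 1 := min_le_left _ _
  have heε : e ≤ ε / 2 := min_le_right _ _
  set E : ℝ := Real.exp (C₀ / e) with hE
  have hE1 : 1 ≤ E := Real.one_le_exp (by positivity)
  have hE0 : 0 < E := by linarith
  set s : ℝ := ε / (2 * E) with hs
  have hs0 : 0 < s := by positivity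
  refine ⟨2 * (3 + 1 / s) ^ E + E, by positivity, ?_⟩
  intro F _ _ _ A P B hA hP hB hB0
  classical
  have hkR : (0 : ℝ) < k := by exact_mod_cast hk
  set A' : Finset ℤ := A.erase 0 with hA'
  have hA'ne : ∀ a ∈ A', a ≠ 0 := fun a ha => (Finset.mem_erase.1 ha).1
  obtain ⟨a₀, ha₀, ha₀'⟩ := hA
  have hA'n : A'.Nonempty := ⟨a₀, Finset.mem_erase.2 ⟨ha₀', ha₀⟩⟩
  have hAcard : (A.card : ℝ) ≤ 2 * A'.card := by
    have h1 : A.card ≤ A'.card + 1 := by
      have : A.card - 1 ≤ A'.card := Finset.pred_card_le_card_erase (s := A) (a := (0 : ℤ))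
      omega
    have h2 : 1 ≤ A'.card := hA'n.card_pos
    exact_mod_cast (by omega : A.card ≤ 2 * A'.card)
  -- the group picture
  set S : Finset Fˣ := A'.image (toU F) with hS
  have hbmem : ∀ b ∈ B, b ≠ 0 := fun b hb h => hB0 (h ▸ hb)
  set T : Finset Fˣ := B.attach.image (fun b => Units.mk0 b.1 (hbmem b.1 b.2)) with hT
  have hTcard : T.card = B.card := by
    rw [hT, Finset.card_image_of_injective, Finset.card_attach]
    intro x y hxy
    have := congrArg Units.val hxy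
    exact Subtype.ext this
  have hTn : T.Nonempty := by
    rw [← Finset.card_pos, hTcard]; exact hB.card_pos
  have hTS : (T * S).card ≤ (A.image (Int.cast : ℤ → F) * B).card := by
    refine Finset.card_le_card_of_injOn (fun u => (u : F)) ?_ (fun x _ y _ h => Units.ext h)
    intro u hu
    obtain ⟨t, ht, v, hv, rfl⟩ := Finset.mem_mul.1 hu
    obtain ⟨b, _, rfl⟩ := Finset.mem_image.1 ht
    obtain ⟨a, ha, rfl⟩ := Finset.mem_image.1 hv
    have ha0 := hA'ne a ha
    refine Finset.mem_coe.2 (Finset.mem_mul.2 ⟨(a : F), Finset.mem_image_of_mem _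
      (Finset.mem_of_mem_erase ha), b.1, b.2, ?_⟩)
    simp [toU_val ha0, mul_comm]
  have hpl := Finset.pluennecke_ruzsa_inequality_pow_mul hTn S k
  have hplR : ((S ^ k).card : ℝ) ≤ (((T * S).card : ℝ) / T.card) ^ k * T.card := by
    have h := (NNRat.cast_le (K := ℝ)).2 hpl
    push_cast at h
    exact h
  have hPS : ((Fintype.piFinset fun _ : Fin k => A').image fun f => ∏ i, f i).card ≤
      (S ^ k).card := card_prod_le A' hA'ne
  have htup := hmain e he0 he1 (fun _ => A') (fun _ => P) (fun _ => ⟨a₀, Finset.mem_erase.2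
    ⟨ha₀', ha₀⟩, ha₀'⟩) (fun _ => hP)
  rw [Finset.prod_const, Finset.prod_const, Finset.card_univ, Fintype.card_fin] at htup
  -- abbreviations
  set a' : ℝ := (A'.card : ℝ) with ha'
  set p : ℝ := (P.card : ℝ) with hp
  set b : ℝ := (B.card : ℝ) with hb
  set N : ℝ := ((A.image (Int.cast : ℤ → F) * B).card : ℝ) with hN
  set R : ℝ := ((A + P).card : ℝ) / P.card with hR
  set R' : ℝ := ((A' + P).card : ℝ) / P.card with hR'
  have ha1 : 1 ≤ a' := by rw [ha']; exact_mod_cast hA'n.card_pos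
  have hp1 : 1 ≤ p := by rw [hp]; exact_mod_cast hP.card_pos
  have hb1 : 1 ≤ b := by rw [hb]; exact_mod_cast hB.card_pos
  have hp0 : 0 < p := by linarith
  have hb0 : 0 < b := by linarith
  have hlogp : 0 ≤ Real.log p := Real.log_nonneg hp1
  have hR'R : R' ≤ R := by
    rw [hR', hR]
    have : (A' + P).card ≤ (A + P).card :=
      Finset.card_le_card (Finset.add_subset_add_right (Finset.erase_subset _ _))
    gcongr
  have hR'1 : 1 ≤ R' := by
    rw [hR', one_le_div hp0]
    have : P.card ≤ (A' + P).card := Finset.card_le_card_add_left hA'n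
    rw [hp]; exact_mod_cast this
  have hR1 : 1 ≤ R := hR'1.trans hR'R
  have hNT : ((T * S).card : ℝ) / T.card ≤ N / b := by
    rw [hTcard, hN]
    have h : ((T * S).card : ℝ) ≤ ((A.image (Int.cast : ℤ → F) * B).card : ℝ) := by
      exact_mod_cast hTS
    gcongr
  have hN0 : 0 ≤ N := by positivity
  -- the k-th power inequality
  set Q : ℝ := p ^ e * ((3 + Real.log p) * R') ^ E with hQ
  have hQ0 : 0 < Q := by positivity
  have hpow : (a' ^ (1 - ε)) ^ k ≤ ((N / b) * Q) ^ k * b := by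
    calc (a' ^ (1 - ε)) ^ k ≤
          (((Fintype.piFinset fun _ : Fin k => A').image fun f => ∏ i, f i).card : ℝ) * Q ^ k :=
          htup
      _ ≤ ((S ^ k).card : ℝ) * Q ^ k := by gcongr
      _ ≤ ((((T * S).card : ℝ) / T.card) ^ k * T.card) * Q ^ k := by gcongr
      _ ≤ ((N / b) ^ k * b) * Q ^ k := by
          have : ((T.card : ℕ) : ℝ) = b := by rw [hTcard]
          rw [this]
          have h0 : 0 ≤ ((T * S).card : ℝ) / b := by positivity
          have h1 : ((T * S).card : ℝ) / b ≤ N / b := by rw [← this]; rw [this] at hNT ⊢; exact hNT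
          gcongr
      _ = ((N / b) * Q) ^ k * b := by rw [mul_pow]; ring
  have hroot : a' ^ (1 - ε) ≤ ((N / b) * Q) * b ^ (1 / (k : ℝ)) := by
    have h1 : 0 ≤ ((N / b) * Q) * b ^ (1 / (k : ℝ)) := by positivity
    refine le_of_pow_le_pow_left₀ (by omega : k ≠ 0) h1 ?_
    rw [mul_pow, ← Real.rpow_natCast (b ^ (1 / (k : ℝ))) k, ← Real.rpow_mul hb0.le,
      one_div_mul_cancel hkR.ne', Real.rpow_one]
    exact hpow
  have h2 : a' ^ (1 - ε) * b ^ (1 - 1 / (k : ℝ)) ≤ N * Q := by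
    have hbs : b ^ (1 - 1 / (k : ℝ)) * b ^ (1 / (k : ℝ)) = b := by
      rw [← Real.rpow_add hb0]; simp
    calc a' ^ (1 - ε) * b ^ (1 - 1 / (k : ℝ)) ≤
          (((N / b) * Q) * b ^ (1 / (k : ℝ))) * b ^ (1 - 1 / (k : ℝ)) := by gcongr
      _ = (N / b) * Q * (b ^ (1 - 1 / (k : ℝ)) * b ^ (1 / (k : ℝ))) := by ring
      _ = N * Q := by rw [hbs]; field_simp
  have hA2 : (A.card : ℝ) ^ (1 - ε) ≤ 2 * a' ^ (1 - ε) := by
    have hAa : a' ≤ (A.card : ℝ) := by
      rw [ha']; exact_mod_cast Finset.card_le_card (Finset.erase_subset _ _)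
    rcases le_or_gt 0 (1 - ε) with h | h
    · calc (A.card : ℝ) ^ (1 - ε) ≤ (2 * a') ^ (1 - ε) := by gcongr
        _ = 2 ^ (1 - ε) * a' ^ (1 - ε) := Real.mul_rpow (by norm_num) (by linarith)
        _ ≤ 2 ^ (1 : ℝ) * a' ^ (1 - ε) := by
            gcongr
            · norm_num
            · linarith
        _ = 2 * a' ^ (1 - ε) := by rw [Real.rpow_one]
    · have h3 : (A.card : ℝ) ^ (1 - ε) ≤ a' ^ (1 - ε) :=
        Real.rpow_le_rpow_of_nonpos (by linarith) hAa h.le
      have h4 : 0 ≤ a' ^ (1 - ε) := by positivity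
      linarith
  have hQle : Q ≤ (3 + 1 / s) ^ E * p ^ ε * R ^ E := by
    have h5 : (3 + Real.log p) ^ E ≤ (3 + 1 / s) ^ E * p ^ (ε / 2) := by
      calc (3 + Real.log p) ^ E ≤ ((3 + 1 / s) * p ^ s) ^ E := by
            gcongr
            exact three_log_le hp1 hs0
        _ = (3 + 1 / s) ^ E * (p ^ s) ^ E := Real.mul_rpow (by positivity) (by positivity)
        _ = (3 + 1 / s) ^ E * p ^ (ε / 2) := by
            rw [← Real.rpow_mul hp0.le]
            congr 2
            rw [hs]; field_simp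
    have h6 : p ^ e ≤ p ^ (ε / 2) := Real.rpow_le_rpow_of_exponent_le hp1 heε
    have h7 : p ^ (ε / 2) * p ^ (ε / 2) = p ^ ε := by
      rw [← Real.rpow_add hp0]; congr 1; ring
    have h8 : R' ^ E ≤ R ^ E := by gcongr
    calc Q = p ^ e * ((3 + Real.log p) ^ E * R' ^ E) := by
          rw [hQ, Real.mul_rpow (by linarith) (by linarith)]
      _ ≤ p ^ (ε / 2) * (((3 + 1 / s) ^ E * p ^ (ε / 2)) * R ^ E) := by gcongr
      _ = (3 + 1 / s) ^ E * (p ^ (ε / 2) * p ^ (ε / 2)) * R ^ E := by ring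
      _ = (3 + 1 / s) ^ E * p ^ ε * R ^ E := by rw [h7]
  have hCE : E ≤ 2 * (3 + 1 / s) ^ E + E := by
    have : 0 ≤ 2 * (3 + 1 / s) ^ E := by positivity
    linarith
  have hRC : R ^ E ≤ R ^ (2 * (3 + 1 / s) ^ E + E) :=
    Real.rpow_le_rpow_of_exponent_le hR1 hCE
  calc (A.card : ℝ) ^ (1 - ε) * b ^ (1 - 1 / (k : ℝ)) ≤
        (2 * a' ^ (1 - ε)) * b ^ (1 - 1 / (k : ℝ)) := by gcongr
    _ = 2 * (a' ^ (1 - ε) * b ^ (1 - 1 / (k : ℝ))) := by ring
    _ ≤ 2 * (N * Q) := by gcongr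
    _ ≤ 2 * (N * ((3 + 1 / s) ^ E * p ^ ε * R ^ E)) := by gcongr
    _ = (2 * (3 + 1 / s) ^ E) * p ^ ε * R ^ E * N := by ring
    _ ≤ (2 * (3 + 1 / s) ^ E + E) * p ^ ε * R ^ (2 * (3 + 1 / s) ^ E + E) * N := by
        gcongr
        linarith

end H633R6
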